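import Mathlib
import Pool.Agent.LibGrT.Defs
import Pool.Agent.LibMM99.T03
import Pool.Agent.LibMM99.T15c
import Pool.Agent.LibMM99.T30

set_option autoImplicit false

namespace Pool.Agent.LibGrT

open MeasureTheory Filter Topology Pool.Agent.LibMM99
open scoped ComplexConjugate

/-- continuous functions are integrable for every finite measure on the sample space -/
theorem A0_int {ν : Measure Om} [IsFiniteMeasure ν] {E : Type*} [NormedAddCommGroup E] {f : Om → E}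
    (hf : Continuous f) : Integrable f ν :=
  hf.integrable_of_hasCompactSupport (HasCompactSupport.of_compactSpace f)

theorem A0_kap_ge {K : ℝ} (hK : 0 ≤ K) (J i : ℕ) : K ≤ kap K J i := by
  unfold kap
  exact le_mul_of_one_le_right hK (one_le_pow₀ (by norm_num))

/-- the sum of the error factors over the scales -/
theorem A0_sum {K : ℝ} (hK : 40 ≤ K) (J : ℕ) {j : ℕ} (hj : j ≤ J) :
    ∑ i ∈ Finset.range j, Real.exp (-kap K J i / 20) ≤ 2 * Real.exp (-K / 20) := by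
  have h1 : ∑ i ∈ Finset.range j, Real.exp (-kap K J i / 20) ≤
      ∑ i ∈ Finset.range J, Real.exp (-kap K J i / 20) :=
    Finset.sum_le_sum_of_subset_of_nonneg (Finset.range_mono hj) fun i _ _ => (Real.exp_pos _).le
  refine h1.trans ?_
  have h2 : ∑ i ∈ Finset.range J, Real.exp (-kap K J i / 20) =
      ∑ i ∈ Finset.range J, Real.exp (-(K * (3 / 2 : ℝ) ^ i) / 20) :=
    Finset.sum_range_reflect (fun n => Real.exp (-(K * (3 / 2 : ℝ) ^ n) / 20)) J
  rw [h2]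
  have he : Real.exp (-1) ≤ 1 / 2 := by
    have h3 := Real.exp_one_gt_d9
    rw [Real.exp_neg, inv_le_comm₀ (Real.exp_pos _) (by norm_num)]
    norm_num
    linarith
  have h3 : ∀ i : ℕ, Real.exp (-(K * (3 / 2 : ℝ) ^ i) / 20) ≤ Real.exp (-K / 20) * (1 / 2) ^ i := by
    intro i
    have hb : 1 + (i : ℝ) * (1 / 2) ≤ (3 / 2 : ℝ) ^ i := by
      have := one_add_mul_le_pow (a := (1 / 2 : ℝ)) (by norm_num) i
      norm_num at this ⊢
      linarith
    have hi : (0 : ℝ) ≤ i := Nat.cast_nonneg i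
    have h4 : -(K * (3 / 2 : ℝ) ^ i) / 20 ≤ -K / 20 + i * (-1) := by nlinarith
    calc Real.exp (-(K * (3 / 2 : ℝ) ^ i) / 20) ≤ Real.exp (-K / 20 + i * (-1)) := Real.exp_le_exp.mpr h4
      _ = Real.exp (-K / 20) * Real.exp (-1) ^ i := by
          rw [Real.exp_add, Real.exp_nat_mul]
      _ ≤ Real.exp (-K / 20) * (1 / 2) ^ i :=
          mul_le_mul_of_nonneg_left (pow_le_pow_left₀ (Real.exp_pos _).le he i) (Real.exp_pos _).le
  refine (Finset.sum_le_sum fun i _ => h3 i).trans ?_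
  rw [← Finset.mul_sum, mul_comm]
  refine mul_le_mul_of_nonneg_right ?_ (Real.exp_pos _).le
  have h5 : ∑ i ∈ Finset.range J, (1 / 2 : ℝ) ^ i ≤ 2 := by
    rw [geom_sum_eq (by norm_num)]
    have : (0 : ℝ) ≤ (1 / 2) ^ J := by positivity
    have e : ((1 / 2 : ℝ) ^ J - 1) / (1 / 2 - 1) = 2 - 2 * (1 / 2) ^ J := by ring
    rw [e]
    linarith
  exact h5

/-- the mean of a product over the scales -/
theorem A0_int_BB {ν : Measure Om} (hν : IsProd ν) {l0 : ℝ} (h0 : 0 ≤ l0) {J : ℕ} {b : ℕ → Om → ℝ}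
    (hc : ∀ i < J, Continuous (b i)) (hd : ∀ i < J, DependsOn (b i) (coo (tj l0 i) (tj l0 (i + 1)))) :
    ∀ j ≤ J, ∫ x, BB b j x ∂ν = ∏ i ∈ Finset.range j, ∫ x, b i x ∂ν := by
  have := hν.prob
  intro j
  induction j with
  | zero =>
    intro _
    simp [BB]
  | succ j ih =>
    intro hj
    have h1 : ∀ x, BB b (j + 1) x = BB b j x * b j x := fun x => by
      simp only [BB, Finset.prod_range_succ]
    simp only [h1]
    rw [hν.indep _ _ _ _ (continuous_BB fun i hi => hc i (by omega)) (hc j (by omega))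
      (dependsOn_BB h0 fun i hi => hd i (by omega)) (hd j (by omega))
      (coo_disjoint le_rfl), ih (by omega), Finset.prod_range_succ]

/-- the length at one scale -/
noncomputable def A0_x (l0 K : ℝ) (J i : ℕ) : ℝ := kap K J i * (l0 * 2 ^ (i + 1))

theorem A0_x_nonneg {l0 K : ℝ} (h0 : 0 ≤ l0) (hK : 0 ≤ K) (J i : ℕ) :
    0 ≤ A0_x l0 K J i := by
  unfold A0_x kap; positivity

theorem A0_xsum {l0 K : ℝ} (h0 : 0 ≤ l0) (hK : 0 ≤ K) (J : ℕ) :
    ∑ i ∈ Finset.range J, A0_x l0 K J i ≤ 4 * K * (l0 * 2 ^ J) := by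
  have h1 : ∀ i ∈ Finset.range J, A0_x l0 K J i = K * (l0 * 2 ^ J) * (3 / 4 : ℝ) ^ (J - 1 - i) := by
    intro i hi
    have hi' : i < J := Finset.mem_range.1 hi
    have e1 : (2 : ℝ) ^ J = 2 ^ (i + 1) * 2 ^ (J - 1 - i) := by
      rw [← pow_add]; congr 1; omega
    unfold A0_x kap
    rw [e1]
    have e2 : (3 / 4 : ℝ) ^ (J - 1 - i) * 2 ^ (J - 1 - i) = (3 / 2 : ℝ) ^ (J - 1 - i) := by
      rw [← mul_pow]; norm_num
    rw [← e2]; ring
  rw [Finset.sum_congr rfl h1, ← Finset.mul_sum]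
  have h2 : ∑ i ∈ Finset.range J, (3 / 4 : ℝ) ^ (J - 1 - i) ≤ 4 := by
    rw [Finset.sum_range_reflect (fun i => (3 / 4 : ℝ) ^ i) J]
    have h3 := geom_sum_eq (by norm_num : (3 / 4 : ℝ) ≠ 1) J
    rw [h3]
    have h4 : (0 : ℝ) ≤ (3 / 4 : ℝ) ^ J := by positivity
    rw [div_le_iff_of_neg (by norm_num)]
    nlinarith
  have h5 : 0 ≤ K * (l0 * 2 ^ J) := by positivity
  nlinarith [mul_le_mul_of_nonneg_left h2 h5]

theorem A0_BB {l0 K C0 : ℝ} (J : ℕ) (b : ℕ → Om → ℝ)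
    (hb : ∀ i < J, IsPolyR (C0 * A0_x l0 K J i) (b i)) : ∀ j ≤ J,
    IsPolyR (∑ i ∈ Finset.range j, C0 * A0_x l0 K J i) (BB b j) := by
  intro j
  induction j with
  | zero =>
    intro _
    have h := IsPolyR.const 1 (a := 0) le_rfl (by simp)
    have e : BB b 0 = fun _ => (1 : ℝ) := by funext x; simp [BB]
    rw [e]; simpa using h
  | succ j ih =>
    intro hj
    have h1 := ih (by omega)
    have h2 := IsPolyR.mul h1 (hb j (by omega))
    have e : BB b (j + 1) = fun x => BB b j x * b j x := by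
      funext x; simp [BB, Finset.prod_range_succ]
    rw [e, Finset.sum_range_succ]
    exact h2

theorem A0_UU {l0 K C0 : ℝ} (h0 : 0 ≤ l0) (hK : 0 ≤ K) (hC0 : 0 ≤ C0) (r J : ℕ)
    (b e : ℕ → Om → ℝ)
    (hb : ∀ i < J, IsPolyR (C0 * A0_x l0 K J i) (b i))
    (he : ∀ i < J, IsPolyR (C0 * A0_x l0 K J i) (e i)) : ∀ j ≤ J,
    IsPolyR (∑ i ∈ Finset.range j, ((2 * r + C0) * A0_x l0 K J i + 2)) (UU r l0 K J b e j) := by
  intro j
  induction j with
  | zero =>
    intro _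
    have h := IsPolyR.const 0 (a := 0) le_rfl (by simp)
    have e : UU r l0 K J b e 0 = fun _ => (0 : ℝ) := by funext x; simp [UU]
    rw [e]; simpa using h
  | succ j ih =>
    intro hj
    set Lj := ∑ i ∈ Finset.range j, ((2 * r + C0) * A0_x l0 K J i + 2) with hLj
    have h1 := ih (by omega)
    have hx : 0 ≤ A0_x l0 K J j := A0_x_nonneg h0 hK J j
    have hr : (0 : ℝ) ≤ r := Nat.cast_nonneg r
    have hpsi : IsPolyR (2 * r * A0_x l0 K J j) (fun x => ‖psi l0 K J j x‖ ^ (2 * r)) :=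
      IsPoly.normPow (psi_poly h0 hK J j) r
    have hone : IsPolyR (2 * r * A0_x l0 K J j) (fun _ => (1 : ℝ)) :=
      IsPolyR.const 1 (by positivity) (by
        rw [abs_one]; exact Real.one_le_exp (by positivity))
    have h2 : IsPolyR (2 * r * A0_x l0 K J j + 1) (fun x => 1 + ‖psi l0 K J j x‖ ^ (2 * r)) :=
      IsPolyR.add hone hpsi
    have h3 := IsPolyR.mul h2 h1
    have h4 := IsPolyR.mul (he j (by omega)) (A0_BB J b hb j (by omega))
    have hS : ∑ i ∈ Finset.range j, C0 * A0_x l0 K J i ≤ Lj := by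
      rw [hLj]
      refine Finset.sum_le_sum fun i _ => ?_
      have hxi : 0 ≤ A0_x l0 K J i := A0_x_nonneg h0 hK J i
      have h6 : 0 ≤ 2 * (r : ℝ) * A0_x l0 K J i := by positivity
      nlinarith
    have h6 : 0 ≤ 2 * (r : ℝ) * A0_x l0 K J j := by positivity
    have h7 : 0 ≤ C0 * A0_x l0 K J j := by positivity
    have h3' := IsPolyR.mono h3 (b := Lj + (2 * r + C0) * A0_x l0 K J j + 1) (by nlinarith)
    have h4' := IsPolyR.mono h4 (b := Lj + (2 * r + C0) * A0_x l0 K J j + 1) (by nlinarith)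
    have h5 := IsPolyR.add h3' h4'
    have e1 : UU r l0 K J b e (j + 1) = fun x =>
        (1 + ‖psi l0 K J j x‖ ^ (2 * r)) * UU r l0 K J b e j x + e j x * BB b j x := by
      funext x; simp [UU]
    rw [e1, Finset.sum_range_succ, ← hLj]
    exact IsPolyR.mono h5 (by linarith)

theorem A0_product_poly (r : ℕ) {C0 : ℝ} (hC0 : 1 ≤ C0) : ∃ C : ℝ, 1 ≤ C ∧ ∀ (l0 K : ℝ) (J : ℕ),
    Real.log 2 / 2 ≤ l0 → l0 ≤ Real.log 2 → 1 ≤ K → ∀ b e : ℕ → Om → ℝ,
    (∀ i < J, IsPolyR (C0 * kap K J i * Real.log (tj l0 (i + 1))) (b i)) →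
    (∀ i < J, IsPolyR (C0 * kap K J i * Real.log (tj l0 (i + 1))) (e i)) → ∀ j ≤ J,
    IsPolyR (C * K * (l0 * 2 ^ J)) (BB b j) ∧ IsPolyR (C * K * (l0 * 2 ^ J)) (UU r l0 K J b e j) := by
  have hr : (0 : ℝ) ≤ r := Nat.cast_nonneg r
  refine ⟨8 * r + 4 * C0 + 6, by linarith, ?_⟩
  intro l0 K J hl0 _ hK b e hsb hse j hj
  have hlog : (0.69 : ℝ) < Real.log 2 := by linarith [Real.log_two_gt_d9]
  have h0 : 0 ≤ l0 := by linarith
  have hK0 : 0 ≤ K := by linarith
  have hC00 : 0 ≤ C0 := by linarith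
  have hb : ∀ i < J, IsPolyR (C0 * A0_x l0 K J i) (b i) := by
    intro i hi
    have h := hsb i hi
    rw [log_tj] at h
    have e1 : C0 * A0_x l0 K J i = C0 * kap K J i * (l0 * 2 ^ (i + 1)) := by
      unfold A0_x; ring
    rw [e1]; exact h
  have he : ∀ i < J, IsPolyR (C0 * A0_x l0 K J i) (e i) := by
    intro i hi
    have h := hse i hi
    rw [log_tj] at h
    have e1 : C0 * A0_x l0 K J i = C0 * kap K J i * (l0 * 2 ^ (i + 1)) := by
      unfold A0_x; ring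
    rw [e1]; exact h
  have hsum := A0_xsum h0 hK0 J
  have hmono : ∑ i ∈ Finset.range j, A0_x l0 K J i ≤ ∑ i ∈ Finset.range J, A0_x l0 K J i :=
    Finset.sum_le_sum_of_subset_of_nonneg (Finset.range_mono hj)
      (fun i _ _ => A0_x_nonneg h0 hK0 J i)
  have hS : ∑ i ∈ Finset.range j, A0_x l0 K J i ≤ 4 * K * (l0 * 2 ^ J) := hmono.trans hsum
  have hS0 : 0 ≤ ∑ i ∈ Finset.range j, A0_x l0 K J i :=
    Finset.sum_nonneg fun i _ => A0_x_nonneg h0 hK0 J i
  have hX : 0 ≤ K * (l0 * 2 ^ J) := by positivity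
  have hJ : (j : ℝ) ≤ 3 * (K * (l0 * 2 ^ J)) := by
    have h1 : (j : ℝ) ≤ 2 ^ J := by
      have : j ≤ 2 ^ J := hj.trans (Nat.lt_two_pow_self).le
      exact_mod_cast this
    have h2 : (0 : ℝ) < 2 ^ J := by positivity
    have h3 : (1 : ℝ) ≤ 3 * l0 := by linarith
    have h4 : (2 : ℝ) ^ J ≤ 3 * (l0 * 2 ^ J) := by nlinarith
    have h5 : 0 ≤ l0 * (2 : ℝ) ^ J := by positivity
    nlinarith
  constructor
  · refine IsPolyR.mono (A0_BB J b hb j hj) ?_
    rw [← Finset.mul_sum]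
    have h1 : C0 * ∑ i ∈ Finset.range j, A0_x l0 K J i ≤ C0 * (4 * K * (l0 * 2 ^ J)) :=
      mul_le_mul_of_nonneg_left hS hC00
    have h2 : 0 ≤ (r : ℝ) * (K * (l0 * 2 ^ J)) := by positivity
    nlinarith
  · refine IsPolyR.mono (A0_UU h0 hK0 hC00 r J b e hb he j hj) ?_
    have e1 : ∑ i ∈ Finset.range j, ((2 * r + C0) * A0_x l0 K J i + 2) =
        (2 * r + C0) * ∑ i ∈ Finset.range j, A0_x l0 K J i + 2 * j := by
      rw [Finset.sum_add_distrib, ← Finset.mul_sum]; simp; ring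
    rw [e1]
    have h1 : (2 * r + C0) * ∑ i ∈ Finset.range j, A0_x l0 K J i ≤
        (2 * r + C0) * (4 * K * (l0 * 2 ^ J)) :=
      mul_le_mul_of_nonneg_left hS (by positivity)
    nlinarith

end Pool.Agent.LibGrT
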