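import Mathlib
import Pool.Agent.LibGrT.A0

set_option autoImplicit false

namespace Pool.Agent.LibGrT

open MeasureTheory Filter Topology Pool.Agent.LibMM99
open scoped ComplexConjugate

theorem A1_rpow_le {k : ℝ} (hk : 0 < k) {r : ℕ} (hr : k ≤ 2 * r) {y : ℝ} (hy : 0 ≤ y) :
    y ^ k ≤ 1 + y ^ (2 * r) := by
  rcases le_total y 1 with h | h
  · have h1 : y ^ k ≤ 1 := Real.rpow_le_one hy h hk.le
    have h2 : 0 ≤ y ^ (2 * r) := pow_nonneg hy _
    linarith
  · have h1 : y ^ k ≤ y ^ ((2 * r : ℕ) : ℝ) :=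
      Real.rpow_le_rpow_of_exponent_le h (by push_cast; exact hr)
    rw [Real.rpow_natCast] at h1
    linarith

theorem A1_BB_le {N : Set (Measure Om)} {β C0 Cg γ l0 K : ℝ} {J : ℕ} {G : ℕ → ℝ} {b e : ℕ → Om → ℝ}
    (hN : ∀ ν ∈ N, IsProd ν) (hl0 : 0 ≤ l0)
    (hGp : ∀ j ≤ J, ∏ i ∈ Finset.range j, G i ≤ Cg * (l0 * 2 ^ j) ^ γ)
    (hS : ∀ i < J, ScaleDataN N β C0 (tj l0 i) (tj l0 (i + 1)) (kap K J i) (G i) (b i) (e i)) :
    ∀ j ≤ J, ∀ ν ∈ N, ∫ x, BB b j x ∂ν ≤ Cg * (l0 * 2 ^ j) ^ γ := by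
  intro j hj ν hν
  have := (hN ν hν).prob
  rw [A0_int_BB (hN ν hν) hl0 (fun i hi => (hS i hi).b_poly.continuous) (fun i hi => (hS i hi).b_dep) j hj]
  refine le_trans (Finset.prod_le_prod ?_ ?_) (hGp j hj)
  · intro i hi
    exact integral_nonneg (hS i (by have := Finset.mem_range.mp hi; omega)).b_nonneg
  · intro i hi
    exact (hS i (by have := Finset.mem_range.mp hi; omega)).b_le ν hν

/-- A1 -/
theorem scale_product_N {β : ℝ} (hβ : 0 < β) {r : ℕ} (hr : β ≤ 2 * r) {C0 Cψ Cg γ : ℝ} (hC0 : 1 ≤ C0)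
    (hCψ : 1 ≤ Cψ) (hCg : 1 ≤ Cg) (hγ : 0 ≤ γ) :
    ∃ C K1 : ℝ, 1 ≤ C ∧ 1 ≤ K1 ∧ ∀ N : Set (Measure Om), (∀ ν ∈ N, IsProd ν) → ∀ (l0 K : ℝ) (J : ℕ),
    Real.log 2 / 2 ≤ l0 → l0 ≤ Real.log 2 → K1 ≤ K → ∀ (G : ℕ → ℝ) (b e : ℕ → Om → ℝ),
    (∀ i < J, 0 ≤ G i) → (∀ j ≤ J, ∏ i ∈ Finset.range j, G i ≤ Cg * (l0 * 2 ^ j) ^ γ) →
    (∀ i < J, ScaleDataN N β C0 (tj l0 i) (tj l0 (i + 1)) (kap K J i) (G i) (b i) (e i)) →
    (∀ ν ∈ N, ∀ i < J, ∫ x, ‖psi l0 K J i x‖ ^ (2 * r) ∂ν ≤ Cψ) → ∀ j ≤ J,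
    (∀ x, |‖Fj l0 K J j x‖ ^ β - BB b j x| ≤ UU r l0 K J b e j x) ∧
    (∀ ν ∈ N, ∫ x, BB b j x ∂ν ≤ Cg * (l0 * 2 ^ j) ^ γ) ∧
    (∀ ν ∈ N, ∫ x, UU r l0 K J b e j x ∂ν ≤ C * Real.exp (-K / 20) * (l0 * 2 ^ j) ^ γ) := by
  set D : ℝ := 2 * C0 * Cg with hD
  have hD2 : 2 ≤ D := by rw [hD]; nlinarith
  set K1 : ℝ := max 40 (40 * Real.log (2 * (1 + Cψ))) with hK1
  refine ⟨D, K1, by linarith, le_max_of_le_left (by norm_num), ?_⟩
  intro N hN l0 K J hl _ hK G b e hG0 hGp hS hψ
  have hK40 : 40 ≤ K := (le_max_left _ _).trans hK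
  have hK0 : 0 ≤ K := by linarith
  have hKm : (1 + Cψ) * Real.exp (-K / 40) ≤ 1 / 2 := by
    have h1 : 40 * Real.log (2 * (1 + Cψ)) ≤ K := (le_max_right _ _).trans hK
    have h2 : Real.exp (-K / 40) ≤ Real.exp (-Real.log (2 * (1 + Cψ))) :=
      Real.exp_le_exp.mpr (by linarith)
    rw [Real.exp_neg, Real.exp_log (by positivity)] at h2
    calc (1 + Cψ) * Real.exp (-K / 40) ≤ (1 + Cψ) * (2 * (1 + Cψ))⁻¹ :=
          mul_le_mul_of_nonneg_left h2 (by positivity)
      _ = 1 / 2 := by field_simp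
  have hlog2 : 0 < Real.log 2 := Real.log_pos (by norm_num)
  have hl00 : 0 < l0 := lt_of_lt_of_le (by positivity) hl
  have hl0 : 0 ≤ l0 := hl00.le
  have hbc : ∀ i < J, Continuous (b i) := fun i hi => (hS i hi).b_poly.continuous
  have hec : ∀ i < J, Continuous (e i) := fun i hi => (hS i hi).e_poly.continuous
  -- pointwise
  have hpt : ∀ j ≤ J, ∀ x, |‖Fj l0 K J j x‖ ^ β - BB b j x| ≤ UU r l0 K J b e j x := by
    intro j
    induction j with
    | zero =>
      intro _ x
      simp [Fj, BB, UU]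
    | succ j ih =>
      intro hj x
      have ih' := ih (by omega) x
      have hF : Fj l0 K J (j + 1) x = Fj l0 K J j x * psi l0 K J j x := by
        simp only [Fj, Finset.prod_range_succ]
      have hBB : BB b (j + 1) x = BB b j x * b j x := by
        simp only [BB, Finset.prod_range_succ]
      have hUU : UU r l0 K J b e (j + 1) x =
          (1 + ‖psi l0 K J j x‖ ^ (2 * r)) * UU r l0 K J b e j x + e j x * BB b j x := rfl
      have happ : |‖psi l0 K J j x‖ ^ β - b j x| ≤ e j x := by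
        have := (hS j (by omega)).approx x
        rw [log_tj] at this
        exact this
      have hBn : 0 ≤ BB b j x := BB_nonneg (fun i hi => (hS i (by omega)).b_nonneg) x
      rw [hF, hBB, hUU, norm_mul, Real.mul_rpow (norm_nonneg _) (norm_nonneg _)]
      set X := ‖Fj l0 K J j x‖ ^ β
      set Y := ‖psi l0 K J j x‖ ^ β with hY
      have hY0 : 0 ≤ Y := Real.rpow_nonneg (norm_nonneg _) _
      have hY1 : Y ≤ 1 + ‖psi l0 K J j x‖ ^ (2 * r) := A1_rpow_le hβ hr (norm_nonneg _)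
      have e1 : X * Y - BB b j x * b j x = (X - BB b j x) * Y + BB b j x * (Y - b j x) := by ring
      rw [e1]
      refine (abs_add_le _ _).trans ?_
      rw [abs_mul, abs_mul, abs_of_nonneg hY0, abs_of_nonneg hBn]
      have hU0 : 0 ≤ UU r l0 K J b e j x := (abs_nonneg _).trans ih'
      have g1 : |X - BB b j x| * Y ≤ (1 + ‖psi l0 K J j x‖ ^ (2 * r)) * UU r l0 K J b e j x := by
        rw [mul_comm (1 + _)]
        exact mul_le_mul ih' hY1 hY0 hU0
      have g2 : BB b j x * |Y - b j x| ≤ e j x * BB b j x := by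
        rw [mul_comm (e j x)]
        exact mul_le_mul_of_nonneg_left happ hBn
      linarith
  have hB := A1_BB_le hN hl0 hGp hS
  have hmean : ∀ ν ∈ N, ∀ j ≤ J, ∫ x, UU r l0 K J b e j x ∂ν ≤ D * Real.exp (-K / 20) * (l0 * 2 ^ j) ^ γ := by
    intro ν hνN
    have hν := hN ν hνN
    have := hν.prob
    -- the recursion for the means
    have hrec : ∀ j < J, ∫ x, UU r l0 K J b e (j + 1) x ∂ν ≤
        (1 + Cψ) * ∫ x, UU r l0 K J b e j x ∂ν +
          C0 * Real.exp (-kap K J j / 20) * (Cg * (l0 * 2 ^ j) ^ γ) := by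
      intro j hj
      have hUc : Continuous (UU r l0 K J b e j) :=
        continuous_UU (fun i hi => hbc i (by omega)) (fun i hi => hec i (by omega))
      have hBc : Continuous (BB b j) := continuous_BB fun i hi => hbc i (by omega)
      have hpc : Continuous (fun x => ‖psi l0 K J j x‖ ^ (2 * r)) :=
        (continuous_psi.norm).pow _
      have hUd : DependsOn (UU r l0 K J b e j) (coo 1 (tj l0 j)) :=
        dependsOn_UU hl0 (fun i hi => (hS i (by omega)).b_dep) (fun i hi => (hS i (by omega)).e_dep)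
      have hBd : DependsOn (BB b j) (coo 1 (tj l0 j)) :=
        dependsOn_BB hl0 fun i hi => (hS i (by omega)).b_dep
      have hpd : DependsOn (fun x => ‖psi l0 K J j x‖ ^ (2 * r)) (coo (tj l0 j) (tj l0 (j + 1))) := by
        intro x y hxy
        have := (dependsOn_psi (l0 := l0) (K := K) (J := J) (j := j)) hxy
        simp only [this]
      have hUn : 0 ≤ ∫ x, UU r l0 K J b e j x ∂ν :=
        integral_nonneg (UU_nonneg (fun i hi => (hS i (by omega)).b_nonneg)
          (fun i hi => (hS i (by omega)).e_nonneg))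
      have hBn : 0 ≤ ∫ x, BB b j x ∂ν :=
        integral_nonneg (BB_nonneg fun i hi => (hS i (by omega)).b_nonneg)
      have e1 : ∫ x, UU r l0 K J b e (j + 1) x ∂ν =
          ∫ x, UU r l0 K J b e j x ∂ν +
            ∫ x, UU r l0 K J b e j x * ‖psi l0 K J j x‖ ^ (2 * r) ∂ν +
            ∫ x, BB b j x * e j x ∂ν := by
        have i1 : Integrable (fun x => UU r l0 K J b e j x) ν := A0_int hUc
        have i2 : Integrable (fun x => UU r l0 K J b e j x * ‖psi l0 K J j x‖ ^ (2 * r)) ν :=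
          A0_int (hUc.mul hpc)
        have i3 : Integrable (fun x => BB b j x * e j x) ν :=
          A0_int (hBc.mul (hec j hj))
        have i12 : Integrable (fun x => UU r l0 K J b e j x +
            UU r l0 K J b e j x * ‖psi l0 K J j x‖ ^ (2 * r)) ν := i1.add i2
        rw [← integral_add i1 i2, ← integral_add i12 i3]
        refine integral_congr_ae (Eventually.of_forall fun x => ?_)
        simp only [UU]
        ring
      rw [e1, hν.indep _ _ _ _ hUc hpc hUd hpd (coo_disjoint le_rfl),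
        hν.indep _ _ _ _ hBc (hec j hj) hBd (hS j hj).e_dep (coo_disjoint le_rfl)]
      have g1 : ∫ x, ‖psi l0 K J j x‖ ^ (2 * r) ∂ν ≤ Cψ := hψ ν hνN j hj
      have g2 := (hS j hj).e_le ν hνN
      have g3 := hB j hj.le ν hνN
      have g4 : (∫ x, BB b j x ∂ν) * ∫ x, e j x ∂ν ≤
          (Cg * (l0 * 2 ^ j) ^ γ) * (C0 * Real.exp (-kap K J j / 20)) := by
        have hen : 0 ≤ ∫ x, e j x ∂ν := integral_nonneg (hS j hj).e_nonneg
        exact mul_le_mul g3 g2 hen (hBn.trans g3)
      have g5 : (∫ x, UU r l0 K J b e j x ∂ν) * ∫ x, ‖psi l0 K J j x‖ ^ (2 * r) ∂ν ≤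
          (∫ x, UU r l0 K J b e j x ∂ν) * Cψ := mul_le_mul_of_nonneg_left g1 hUn
      linarith
    -- the induction
    have hmain : ∀ j, j + 1 ≤ J → ∫ x, UU r l0 K J b e (j + 1) x ∂ν ≤
        D * Real.exp (-kap K J j / 20) * (l0 * 2 ^ (j + 1)) ^ γ := by
      have hpw : ∀ j : ℕ, (l0 * 2 ^ j) ^ γ ≤ (l0 * 2 ^ (j + 1)) ^ γ := by
        intro j
        refine Real.rpow_le_rpow (by positivity) ?_ (by positivity)
        exact mul_le_mul_of_nonneg_left (pow_le_pow_right₀ (by norm_num) (Nat.le_succ j)) hl0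
      intro j
      induction j with
      | zero =>
        intro hj
        have h1 := hrec 0 (by omega)
        have h2 : ∫ x, UU r l0 K J b e 0 x ∂ν = 0 := by simp [UU]
        rw [h2, mul_zero] at h1
        refine h1.trans ?_
        have h3 := hpw 0
        have h4 : 0 ≤ (l0 * 2 ^ 0) ^ γ := Real.rpow_nonneg (by positivity) _
        have h5 : 0 < Real.exp (-kap K J 0 / 20) := Real.exp_pos _
        calc 0 + C0 * Real.exp (-kap K J 0 / 20) * (Cg * (l0 * 2 ^ 0) ^ γ)
            = (C0 * Cg) * Real.exp (-kap K J 0 / 20) * (l0 * 2 ^ 0) ^ γ := by ring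
          _ ≤ D * Real.exp (-kap K J 0 / 20) * (l0 * 2 ^ (0 + 1)) ^ γ := by
            refine mul_le_mul ?_ h3 h4 (by positivity)
            refine mul_le_mul_of_nonneg_right ?_ h5.le
            rw [hD]
            nlinarith [mul_pos (show 0 < C0 by linarith) (show 0 < Cg by linarith)]
      | succ j ih =>
        intro hj
        have h1 := hrec (j + 1) (by omega)
        have h2 := ih (by omega)
        refine h1.trans ?_
        have hkap : kap K J j = 3 / 2 * kap K J (j + 1) := by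
          unfold kap
          have : J - 1 - j = (J - 1 - (j + 1)) + 1 := by omega
          rw [this, pow_succ]
          ring
        have hk1 : K ≤ kap K J (j + 1) := A0_kap_ge hK0 J (j + 1)
        set κ := kap K J (j + 1) with hκ
        set P := (l0 * 2 ^ (j + 1)) ^ γ with hP
        have hP0 : 0 ≤ P := Real.rpow_nonneg (by positivity) _
        have hP1 := hpw (j + 1)
        rw [← hP] at hP1
        have hE : 0 < Real.exp (-κ / 20) := Real.exp_pos _
        have h3 : Real.exp (-kap K J j / 20) ≤ Real.exp (-κ / 20) * Real.exp (-K / 40) := by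
          rw [← Real.exp_add, hkap]
          refine Real.exp_le_exp.mpr ?_
          linarith
        have h4 : (1 + Cψ) * ∫ x, UU r l0 K J b e (j + 1) x ∂ν ≤
            (D / 2) * Real.exp (-κ / 20) * P := by
          calc (1 + Cψ) * ∫ x, UU r l0 K J b e (j + 1) x ∂ν
              ≤ (1 + Cψ) * (D * Real.exp (-kap K J j / 20) * P) :=
                mul_le_mul_of_nonneg_left h2 (by linarith)
            _ ≤ (1 + Cψ) * (D * (Real.exp (-κ / 20) * Real.exp (-K / 40)) * P) := by
                refine mul_le_mul_of_nonneg_left ?_ (by linarith)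
                refine mul_le_mul_of_nonneg_right ?_ hP0
                exact mul_le_mul_of_nonneg_left h3 (by linarith)
            _ = ((1 + Cψ) * Real.exp (-K / 40)) * (D * Real.exp (-κ / 20) * P) := by ring
            _ ≤ (1 / 2) * (D * Real.exp (-κ / 20) * P) :=
                mul_le_mul_of_nonneg_right hKm (by positivity)
            _ = (D / 2) * Real.exp (-κ / 20) * P := by ring
        have h5 : C0 * Real.exp (-κ / 20) * (Cg * P) = (D / 2) * Real.exp (-κ / 20) * P := by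
          rw [hD]; ring
        rw [h5]
        calc (1 + Cψ) * ∫ x, UU r l0 K J b e (j + 1) x ∂ν + (D / 2) * Real.exp (-κ / 20) * P
            ≤ (D / 2) * Real.exp (-κ / 20) * P + (D / 2) * Real.exp (-κ / 20) * P := by linarith
          _ = D * Real.exp (-κ / 20) * P := by ring
          _ ≤ D * Real.exp (-κ / 20) * (l0 * 2 ^ (j + 1 + 1)) ^ γ :=
              mul_le_mul_of_nonneg_left hP1 (by positivity)
    intro j hj
    have hPn : 0 ≤ (l0 * 2 ^ j) ^ γ := Real.rpow_nonneg (by positivity) _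
    rcases Nat.eq_zero_or_pos j with h | h
    · subst h
      have h2 : ∫ x, UU r l0 K J b e 0 x ∂ν = 0 := by simp [UU]
      rw [h2]
      have : 0 ≤ D := by linarith
      positivity
    · obtain ⟨i, rfl⟩ : ∃ i, j = i + 1 := ⟨j - 1, by omega⟩
      refine (hmain i hj).trans ?_
      refine mul_le_mul_of_nonneg_right ?_ hPn
      refine mul_le_mul_of_nonneg_left ?_ (by linarith)
      refine Real.exp_le_exp.mpr ?_
      have := A0_kap_ge hK0 J i
      linarith
  intro j hj
  exact ⟨hpt j hj, hB j hj, fun ν hν => hmean ν hν j hj⟩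

end Pool.Agent.LibGrT
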