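import Mathlib
import Pool.Agent.LibGrT.Defs
import Pool.Agent.LibGrT.B12

set_option autoImplicit false

namespace Pool.Agent.LibGrT

open MeasureTheory Filter Topology Pool.Agent.LibMM99
open scoped ComplexConjugate


/-- `∑_{q₁ q₂ = n} τ_{β/2}(q₂) = τ_{β/2+1}(n)`. -/
theorem B13_sum (β : ℝ) (n : ℕ) :
    ∑ q ∈ n.divisorsAntidiagonal, LibZM.tau (β / 2) q.2 = LibZM.tau ((β + 2) / 2) n := by
  have h1 : (β + 2) / 2 = 1 + β / 2 := by ring
  rw [h1, ← LibZM.tau_mul, ArithmeticFunction.mul_apply]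
  refine Finset.sum_congr rfl fun q hq => ?_
  have h2 : q.1 ≠ 0 := by
    obtain ⟨h3, h4⟩ := Nat.mem_divisorsAntidiagonal.1 hq
    rintro h5
    rw [h5, zero_mul] at h3
    exact h4 h3.symm
  rw [LibZM.tau_one_apply h2, one_mul]

theorem norm_cv_le {β : ℝ} (hβ : 0 ≤ β) (s : ℂ) (u v X : ℝ) (n : ℕ) :
    ‖cv s u v X (fun n => ((LibZM.tau (β / 2) n : ℝ) : ℂ)) n‖ ≤
      (n : ℝ) ^ |s.re| * (LibZM.tau ((β + 2) / 2) n * (Real.sqrt n)⁻¹) := by
  have hR : 0 ≤ (n : ℝ) ^ |s.re| * (LibZM.tau ((β + 2) / 2) n * (Real.sqrt n)⁻¹) := by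
    have := LibZM.tau_nonneg (show 0 ≤ (β + 2) / 2 by linarith) n
    positivity
  unfold cv
  split_ifs with h
  swap
  · rw [norm_zero]
    exact hR
  · refine (norm_sum_le _ _).trans ?_
    have key : ∀ q ∈ n.divisorsAntidiagonal, ‖((q.1 : ℕ) : ℂ) ^ (-(1 / 2 : ℂ) - s) *
      (if (q.2 : ℝ) ≤ X then ((LibZM.tau (β / 2) q.2 : ℝ) : ℂ) * (((Real.sqrt q.2)⁻¹ : ℝ) : ℂ) else 0)‖ ≤
        (n : ℝ) ^ |s.re| * (Real.sqrt n)⁻¹ * LibZM.tau (β / 2) q.2 := by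
      intro q hq
      obtain ⟨h3, h4⟩ := Nat.mem_divisorsAntidiagonal.1 hq
      have hq1 : 0 < q.1 := by
        rcases Nat.eq_zero_or_pos q.1 with h5 | h5
        · rw [h5, zero_mul] at h3
          exact absurd h3.symm h4
        · exact h5
      have hq2 : 0 < q.2 := by
        rcases Nat.eq_zero_or_pos q.2 with h5 | h5
        · rw [h5, mul_zero] at h3
          exact absurd h3.symm h4
        · exact h5
      have hq1R : (0 : ℝ) < q.1 := by exact_mod_cast hq1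
      have hq2R : (0 : ℝ) < q.2 := by exact_mod_cast hq2
      have hq1R' : (1 : ℝ) ≤ q.1 := by exact_mod_cast hq1
      have hn : (q.1 : ℝ) * q.2 = n := by exact_mod_cast h3
      have hq1n : (q.1 : ℝ) ≤ n := by
        rw [← hn]
        have : (1 : ℝ) ≤ q.2 := by exact_mod_cast hq2
        nlinarith
      have ht := LibZM.tau_nonneg (show 0 ≤ β / 2 by linarith) q.2
      have e1 : ‖((q.1 : ℕ) : ℂ) ^ (-(1 / 2 : ℂ) - s)‖ = (Real.sqrt q.1)⁻¹ * (q.1 : ℝ) ^ (-s.re) := by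
        rw [Complex.norm_natCast_cpow_of_pos hq1]
        have h5 : (-(1 / 2 : ℂ) - s).re = -(1 / 2) + -s.re := by
          simp
          ring
        rw [h5, Real.rpow_add hq1R, Real.rpow_neg hq1R.le, Real.sqrt_eq_rpow]
      have e2 : (q.1 : ℝ) ^ (-s.re) ≤ (n : ℝ) ^ |s.re| :=
        (Real.rpow_le_rpow_of_exponent_le hq1R' (neg_le_abs _)).trans
          (Real.rpow_le_rpow hq1R.le hq1n (abs_nonneg _))
      have e3 : ‖(if (q.2 : ℝ) ≤ X then ((LibZM.tau (β / 2) q.2 : ℝ) : ℂ) *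
          (((Real.sqrt q.2)⁻¹ : ℝ) : ℂ) else 0)‖ ≤ LibZM.tau (β / 2) q.2 * (Real.sqrt q.2)⁻¹ := by
        split_ifs
        · rw [← Complex.ofReal_mul, Complex.norm_real, Real.norm_of_nonneg (by positivity)]
        · rw [norm_zero]
          positivity
      have e4 : (Real.sqrt n)⁻¹ = (Real.sqrt q.1)⁻¹ * (Real.sqrt q.2)⁻¹ := by
        rw [← hn, Real.sqrt_mul hq1R.le, mul_inv]
      rw [norm_mul, e1, e4]
      calc (Real.sqrt q.1)⁻¹ * (q.1 : ℝ) ^ (-s.re) * ‖(if (q.2 : ℝ) ≤ X then ((LibZM.tau (β / 2) q.2 : ℝ) : ℂ) *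
          (((Real.sqrt q.2)⁻¹ : ℝ) : ℂ) else 0)‖
          ≤ (Real.sqrt q.1)⁻¹ * (n : ℝ) ^ |s.re| * (LibZM.tau (β / 2) q.2 * (Real.sqrt q.2)⁻¹) := by
            gcongr
        _ = _ := by ring
    refine (Finset.sum_le_sum key).trans (le_of_eq ?_)
    rw [← Finset.mul_sum, B13_sum]
    ring

theorem norm_cv_eq {β : ℝ} (hβ : 0 ≤ β) {u v X : ℝ} {n : ℕ} (hn : n ∈ smo u v X) :
    ‖cv 0 u v X (fun n => ((LibZM.tau (β / 2) n : ℝ) : ℂ)) n‖ =
      LibZM.tau ((β + 2) / 2) n * (Real.sqrt n)⁻¹ := by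
  unfold smo at hn
  rw [Finset.mem_filter, Finset.mem_Icc] at hn
  obtain ⟨⟨hn1, hn2⟩, hn3⟩ := hn
  have hX : (n : ℝ) ≤ X := by
    rcases le_or_gt 0 X with h0 | h0
    · exact (Nat.le_floor_iff h0).1 hn2
    · rw [Nat.floor_of_nonpos h0.le] at hn2
      omega
  have hmem : n ∈ Nat.factoredNumbers (prm u v) := by
    refine Nat.mem_factoredNumbers_of_primeFactors_subset (by omega) fun p hp => ?_
    rw [mem_prm]
    exact ⟨Nat.prime_of_mem_primeFactors hp, hn3 p hp⟩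
  unfold cv
  rw [if_pos hmem]
  have key : ∀ q ∈ n.divisorsAntidiagonal, ((q.1 : ℕ) : ℂ) ^ (-(1 / 2 : ℂ) - 0) *
      (if (q.2 : ℝ) ≤ X then ((LibZM.tau (β / 2) q.2 : ℝ) : ℂ) * (((Real.sqrt q.2)⁻¹ : ℝ) : ℂ) else 0) =
        (((Real.sqrt n)⁻¹ * LibZM.tau (β / 2) q.2 : ℝ) : ℂ) := by
    intro q hq
    obtain ⟨h3, h4⟩ := Nat.mem_divisorsAntidiagonal.1 hq
    have hq1 : 0 < q.1 := by
      rcases Nat.eq_zero_or_pos q.1 with h5 | h5
      · rw [h5, zero_mul] at h3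
        exact absurd h3.symm h4
      · exact h5
    have hq2 : 0 < q.2 := by
      rcases Nat.eq_zero_or_pos q.2 with h5 | h5
      · rw [h5, mul_zero] at h3
        exact absurd h3.symm h4
      · exact h5
    have hq1R : (0 : ℝ) < q.1 := by exact_mod_cast hq1
    have hq2R : (0 : ℝ) < q.2 := by exact_mod_cast hq2
    have hnn : (q.1 : ℝ) * q.2 = n := by exact_mod_cast h3
    have hq2n : (q.2 : ℝ) ≤ X := by
      refine le_trans ?_ hX
      rw [← hnn]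
      have : (1 : ℝ) ≤ q.1 := by exact_mod_cast hq1
      nlinarith
    have e4 : (Real.sqrt n)⁻¹ = (Real.sqrt q.1)⁻¹ * (Real.sqrt q.2)⁻¹ := by
      rw [← hnn, Real.sqrt_mul hq1R.le, mul_inv]
    have e5 : ((q.1 : ℕ) : ℂ) ^ (-(1 / 2 : ℂ) - 0) = (((Real.sqrt q.1)⁻¹ : ℝ) : ℂ) := by
      have h6 : (-(1 / 2 : ℂ) - 0) = ((-(1 / 2) : ℝ) : ℂ) := by
        push_cast
        ring
      rw [h6, Real.sqrt_eq_rpow, ← Real.rpow_neg hq1R.le, Complex.ofReal_cpow hq1R.le]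
      norm_num
    rw [if_pos hq2n, e5, e4]
    push_cast
    ring
  rw [Finset.sum_congr rfl key, ← Complex.ofReal_sum, ← Finset.mul_sum, B13_sum, Complex.norm_real,
    Real.norm_of_nonneg, mul_comm]
  have := LibZM.tau_nonneg (show 0 ≤ (β + 2) / 2 by linarith) n
  positivity

end Pool.Agent.LibGrT
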