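import Mathlib
import Pool.Agent.LibGrT.Defs
import Pool.Agent.LibMM99.R5

/-! # Moments of the tails for every exponent -/

set_option autoImplicit false

namespace Pool.Agent.LibGrT

open MeasureTheory Filter Topology Pool.Agent.LibMM99
open scoped ComplexConjugate

/-- Arithmetic functions dominated by `tau α`, supported on the integers with all prime factors in
`(u, v]` between `X` and `M`. -/
structure B16P (u v X α : ℝ) (M : ℕ) (f : ArithmeticFunction ℝ) : Prop where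
  nonneg : ∀ n, 0 ≤ f n
  le : ∀ n, f n ≤ LibZM.tau α n
  supp : ∀ n, f n ≠ 0 → (∀ p ∈ n.primeFactors, u < (p : ℝ) ∧ (p : ℝ) ≤ v) ∧ X < (n : ℝ)
  bdd : ∀ n, M < n → f n = 0

theorem B16P.mul {u v X α β : ℝ} {M M' : ℕ} {f g : ArithmeticFunction ℝ}
    (hf : B16P u v X α M f) (hg : B16P u v X β M' g) (hα : 0 ≤ α) (hX : 1 ≤ X) :
    B16P u v X (α + β) (M * M') (f * g) := by
  refine ⟨fun n => ?_, fun n => ?_, fun n hn => ⟨fun p hp => ?_, ?_⟩, fun n hn => ?_⟩
  · rw [ArithmeticFunction.mul_apply]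
    exact Finset.sum_nonneg fun q _ => mul_nonneg (hf.nonneg _) (hg.nonneg _)
  · rw [← LibZM.tau_mul, ArithmeticFunction.mul_apply, ArithmeticFunction.mul_apply]
    exact Finset.sum_le_sum fun q _ => mul_le_mul (hf.le _) (hg.le _) (hg.nonneg _)
      (LibZM.tau_nonneg hα _)
  · rw [ArithmeticFunction.mul_apply] at hn
    obtain ⟨q, hq, hq0⟩ := Finset.exists_ne_zero_of_sum_ne_zero hn
    rw [Nat.mem_divisorsAntidiagonal] at hq
    have h1 : q.1 ≠ 0 := fun h => hq.2 (by rw [← hq.1, h, zero_mul])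
    have h2 : q.2 ≠ 0 := fun h => hq.2 (by rw [← hq.1, h, mul_zero])
    rw [← hq.1, Nat.primeFactors_mul h1 h2, Finset.mem_union] at hp
    rcases hp with hp | hp
    · exact (hf.supp _ (left_ne_zero_of_mul hq0)).1 p hp
    · exact (hg.supp _ (right_ne_zero_of_mul hq0)).1 p hp
  · rw [ArithmeticFunction.mul_apply] at hn
    obtain ⟨q, hq, hq0⟩ := Finset.exists_ne_zero_of_sum_ne_zero hn
    rw [Nat.mem_divisorsAntidiagonal] at hq
    have h1 := (hf.supp _ (left_ne_zero_of_mul hq0)).2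
    have h2 := (hg.supp _ (right_ne_zero_of_mul hq0)).2
    rw [← hq.1]
    push_cast
    nlinarith
  · rw [ArithmeticFunction.mul_apply]
    refine Finset.sum_eq_zero fun q hq => ?_
    rw [Nat.mem_divisorsAntidiagonal] at hq
    rcases lt_or_ge M q.1 with h | h
    · rw [hf.bdd _ h, zero_mul]
    rcases lt_or_ge M' q.2 with h' | h'
    · rw [hg.bdd _ h', mul_zero]
    exfalso
    have := Nat.mul_le_mul h h'
    rw [hq.1] at this
    omega

theorem B16P.pow {u v X α : ℝ} {M : ℕ} {f : ArithmeticFunction ℝ}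
    (hf : B16P u v X α M f) (hα : 0 ≤ α) (hX : 1 ≤ X) (j : ℕ) :
    B16P u v X (((j + 1 : ℕ) : ℝ) * α) (M ^ (j + 1)) (f ^ (j + 1)) := by
  induction j with
  | zero =>
    rw [zero_add, Nat.cast_one, one_mul, pow_one, pow_one]
    exact hf
  | succ j ih =>
    have h := ih.mul hf (by positivity) hX
    rw [pow_succ M (j + 1), pow_succ f (j + 1),
      show (((j + 1 + 1 : ℕ)) : ℝ) * α = ((j + 1 : ℕ) : ℝ) * α + α by push_cast; ring]
    exact h

theorem B16_pow {M : ℕ} {f : ArithmeticFunction ℝ} {u v X α : ℝ} (hf : B16P u v X α M f)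
    (hα : 0 ≤ α) (hX : 1 ≤ X) (x : Om) (j : ℕ) :
    t14A M f x ^ (j + 1) = t14A (M ^ (j + 1)) (f ^ (j + 1)) x := by
  induction j with
  | zero => rw [zero_add, pow_one, pow_one, pow_one]
  | succ j ih =>
    rw [pow_succ, ih, t14A_mul (hf.pow hα hX j).bdd hf.bdd, ← pow_succ, ← pow_succ]

/-- The coefficients of `R5h`. -/
noncomputable def B16f (u v Y X α : ℝ) (D : ℕ) : ArithmeticFunction ℝ :=
  ⟨fun n => if n ∈ smo u v Y ∧ X < (n : ℝ) ∧ Om' n ≤ D then LibZM.tau α n else 0, by simp⟩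

theorem B16f_apply (u v Y X α : ℝ) (D n : ℕ) :
    B16f u v Y X α D n = if n ∈ smo u v Y ∧ X < (n : ℝ) ∧ Om' n ≤ D then LibZM.tau α n else 0 := rfl

theorem B16f_P (u v Y X : ℝ) {α : ℝ} (hα : 0 ≤ α) (D : ℕ) : B16P u v X α ⌊Y⌋₊ (B16f u v Y X α D) := by
  refine ⟨fun n => ?_, fun n => ?_, fun n hn => ?_, fun n hn => ?_⟩
  · rw [B16f_apply]
    split_ifs
    · exact LibZM.tau_nonneg hα n
    · exact le_rfl
  · rw [B16f_apply]
    split_ifs
    · exact le_rfl
    · exact LibZM.tau_nonneg hα n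
  · rw [B16f_apply] at hn
    have h1 : n ∈ smo u v Y ∧ X < (n : ℝ) ∧ Om' n ≤ D := by
      by_contra h
      rw [if_neg h] at hn
      exact hn rfl
    refine ⟨?_, h1.2.1⟩
    have h2 := h1.1
    unfold smo at h2
    rw [Finset.mem_filter] at h2
    exact h2.2
  · rw [B16f_apply, if_neg]
    rintro ⟨h, -⟩
    unfold smo at h
    rw [Finset.mem_filter, Finset.mem_Icc] at h
    omega

theorem B16_h_eq (α u v X : ℝ) (D : ℕ) (x : Om) :
    R5h α u v X D x = t14A ⌊Real.exp (D * Real.log v)⌋₊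
      (B16f u v (Real.exp (D * Real.log v)) X α D) x := by
  unfold R5h t14A DS
  have hsub : smo u v (Real.exp (D * Real.log v)) ⊆ Finset.Icc 1 ⌊Real.exp (D * Real.log v)⌋₊ := by
    intro n hn
    unfold smo at hn
    exact (Finset.mem_filter.1 hn).1
  rw [← Finset.sum_subset hsub]
  · apply Finset.sum_congr rfl
    intro n hn
    rw [B16f_apply]
    beta_reduce
    by_cases h : X < (n : ℝ) ∧ Om' n ≤ D
    · rw [if_pos h, if_pos ⟨hn, h⟩]
      ring
    · rw [if_neg h, if_neg (fun h' => h h'.2)]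
      simp
  · intro n _ hn
    rw [B16f_apply, if_neg (fun h' => hn h'.1)]
    simp

theorem R5_h_moment_gen {α : ℝ} (hα : 0 ≤ α) (N : ℕ) (hN : 1 ≤ N) : ∃ C : ℝ, 0 < C ∧ ∀ (u v κ : ℝ) (D : ℕ),
    Real.sqrt 2 ≤ u → u ≤ v → Real.log v ≤ 2 * Real.log u → 0 ≤ κ →
    ∫ x, ‖R5h α u v (Real.exp (κ * Real.log v)) D x‖ ^ (2 * N) ∂mu ≤ C * Real.exp (-κ / 4) := by
  obtain ⟨j, rfl⟩ : ∃ j, N = j + 1 := ⟨N - 1, by omega⟩
  obtain ⟨r, hr⟩ := exists_nat_ge ((((j + 1 : ℕ) : ℝ) * α) ^ 2)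
  obtain ⟨C, hC, h⟩ := sum_smo_tau_tail_le4 r
  refine ⟨C * 2 ^ r, by positivity, fun u v κ D hu huv hlog hκ => ?_⟩
  obtain ⟨hlu, hlv, -, hu1, hv1⟩ := R5_logs hu huv
  obtain ⟨hq0, hq2⟩ := R5_ratio hu huv hlog
  have hX : 1 ≤ Real.exp (κ * Real.log v) := Real.one_le_exp (by positivity)
  have hP0 := B16f_P u v (Real.exp (D * Real.log v)) (Real.exp (κ * Real.log v)) hα D
  have hP := hP0.pow hα hX j
  have hpt : ∀ x : Om, ‖R5h α u v (Real.exp (κ * Real.log v)) D x‖ ^ (2 * (j + 1)) =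
      ‖DS (Finset.Icc 1 (⌊Real.exp (D * Real.log v)⌋₊ ^ (j + 1)))
        (fun n => (((B16f u v (Real.exp (D * Real.log v)) (Real.exp (κ * Real.log v)) α D ^ (j + 1)) n
          : ℝ) : ℂ)) x‖ ^ 2 := by
    intro x
    rw [mul_comm 2 (j + 1), pow_mul, ← norm_pow, B16_h_eq, B16_pow hP0 hα hX]
    congr 2
    unfold t14A DS
    refine Finset.sum_congr rfl fun n _ => ?_
    ring
  simp_rw [hpt]
  rw [integral_norm_sq _ (fun n hn => (Finset.mem_Icc.mp hn).1)]
  have h1 := h u v (Real.exp (κ * Real.log v))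
    ((⌊Real.exp (D * Real.log v)⌋₊ ^ (j + 1) : ℕ) : ℝ) hu huv hX
  have h2 : -(Real.log (Real.exp (κ * Real.log v))) / (4 * Real.log v) = -κ / 4 := by
    rw [Real.log_exp]
    field_simp
  rw [h2] at h1
  refine le_trans ?_ (h1.trans ?_)
  · have hsub : (smo u v ((⌊Real.exp (D * Real.log v)⌋₊ ^ (j + 1) : ℕ) : ℝ)).filter
        (fun n : ℕ => Real.exp (κ * Real.log v) < (n : ℝ)) ⊆
        Finset.Icc 1 (⌊Real.exp (D * Real.log v)⌋₊ ^ (j + 1)) := by
      intro n hn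
      have h3 := (Finset.mem_filter.1 hn).1
      unfold smo at h3
      rw [Nat.floor_natCast] at h3
      exact (Finset.mem_filter.1 h3).1
    rw [← Finset.sum_subset hsub]
    · refine Finset.sum_le_sum fun n hn => ?_
      apply div_le_div_of_nonneg_right _ (Nat.cast_nonneg n)
      rw [Complex.norm_real, Real.norm_eq_abs, sq_abs]
      calc _ ≤ (LibZM.tau (((j + 1 : ℕ) : ℝ) * α) n) ^ 2 :=
            pow_le_pow_left₀ (hP.nonneg n) (hP.le n) 2
        _ ≤ LibZM.tau ((((j + 1 : ℕ) : ℝ) * α) ^ 2) n := LibZM.tau_sq_le (by positivity) n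
        _ ≤ LibZM.tau (r : ℝ) n := LibZM.tau_mono (by positivity) hr n
    · intro n hn hn'
      have h0 : (B16f u v (Real.exp (D * Real.log v)) (Real.exp (κ * Real.log v)) α D ^ (j + 1)) n = 0 := by
        by_contra hne
        apply hn'
        rw [Finset.mem_filter]
        refine ⟨?_, (hP.supp n hne).2⟩
        unfold smo
        rw [Nat.floor_natCast, Finset.mem_filter]
        exact ⟨hn, (hP.supp n hne).1⟩
      rw [h0]
      simp
  · gcongr

end Pool.Agent.LibGrT
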